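import Mathlib
import Pool.Agent.Y740.Z.Stm
import Pool.Agent.H388SL.Energy

set_option autoImplicit false

/-!
# The energy inequality for nodes in a number field

The first lemmas (sums over the embeddings and the finite places) are copied from
`Pool.Agent.Y740.HtNF` of helper740, and the numerical end of the proof follows
`Pool.Agent.H388SL.DobA`.
-/

namespace Pool.Agent.Y657.ZF

open NumberField Height Real Module Finset

section basic

variable {W : Type} [Field W] [NumberField W]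

lemma sum_mult_eq_sum_emb (g : InfinitePlace W → ℝ) :
    ∑ v : InfinitePlace W, (v.mult : ℝ) * g v = ∑ φ : W →+* ℂ, g (InfinitePlace.mk φ) := by
  classical
  rw [← Finset.sum_fiberwise (s := Finset.univ) (g := fun φ : W →+* ℂ => InfinitePlace.mk φ)]
  apply Finset.sum_congr rfl
  intro v _
  rw [Finset.sum_congr rfl (g := fun _ => g v)]
  · rw [Finset.sum_const, InfinitePlace.card_filter_mk_eq, nsmul_eq_mul]
  · intro φ hφ
    rw [(Finset.mem_filter.mp hφ).2]

lemma logHeight₁_emb (x : W) :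
    logHeight₁ x = ∑ φ : W →+* ℂ, log⁺ ‖φ x‖ + ∑ᶠ v : FinitePlace W, log⁺ (v x) := by
  rw [NumberField.logHeight₁_eq, sum_mult_eq_sum_emb (fun v => log⁺ (v x))]
  rfl

lemma fin_supp {x : W} (hx : x ≠ 0) : {v : FinitePlace W | v x ≠ 1}.Finite :=
  FinitePlace.hasFiniteMulSupport hx

lemma product_formula_log {x : W} (hx : x ≠ 0) :
    ∑ φ : W →+* ℂ, log ‖φ x‖ + ∑ᶠ v : FinitePlace W, log (v x) = 0 := by
  have h := NumberField.prod_abs_eq_one hx
  have h1 : (∏ w : InfinitePlace W, w x ^ w.mult) ≠ 0 := by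
    rw [Finset.prod_ne_zero_iff]
    intro w _
    exact pow_ne_zero _ ((map_ne_zero w).mpr hx)
  have h2 : (∏ᶠ w : FinitePlace W, w x) ≠ 0 := by
    intro h0
    rw [h0, mul_zero] at h
    exact zero_ne_one h
  have h3 := congrArg Real.log h
  rw [Real.log_one, Real.log_mul h1 h2, Real.log_prod (by
    intro w _
    exact pow_ne_zero _ ((map_ne_zero w).mpr hx)),
    Real.log_finprod (fun w => FinitePlace.pos_iff.mpr hx)] at h3
  rw [← h3]
  congr 1
  have h4 := sum_mult_eq_sum_emb (fun v : InfinitePlace W => log (v x))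
  rw [show (∑ φ : W →+* ℂ, log ‖φ x‖) = ∑ φ : W →+* ℂ, log ((InfinitePlace.mk φ) x) from rfl, ← h4]
  apply Finset.sum_congr rfl
  intro w _
  rw [Real.log_pow]

/-- a finite set of places outside which finitely many numbers are units -/
lemma exT (S : Finset W) : ∃ T : Finset (FinitePlace W),
    ∀ x ∈ S, x ≠ 0 → ∀ v, v ∉ T → v x = 1 := by
  classical
  have h : ∀ x : W, ∃ T : Finset (FinitePlace W), x ≠ 0 → ∀ v, v ∉ T → v x = 1 := by
    intro x
    by_cases hx : x = 0
    · exact ⟨∅, fun h => absurd hx h⟩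
    · refine ⟨(fin_supp hx).toFinset, fun _ v hv => ?_⟩
      rw [Set.Finite.mem_toFinset] at hv
      by_contra h
      exact hv h
  choose T hT using h
  exact ⟨S.biUnion T, fun x hx h0 v hv => hT x h0 v fun h => hv (mem_biUnion.mpr ⟨x, hx, h⟩)⟩

lemma sumlog {T : Finset (FinitePlace W)} {x : W} (hx : x ≠ 0) (hT : ∀ v, v ∉ T → v x = 1) :
    ∑ φ : W →+* ℂ, log ‖φ x‖ + ∑ v ∈ T, log (v x) = 0 := by
  rw [← product_formula_log hx]
  congr 1
  symm
  apply finsum_eq_sum_of_support_subset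
  intro v hv
  by_contra h
  apply hv
  show log (v x) = 0
  rw [hT v h, Real.log_one]

lemma htT {T : Finset (FinitePlace W)} {x : W} (hT : x ≠ 0 → ∀ v, v ∉ T → v x = 1) :
    logHeight₁ x = ∑ φ : W →+* ℂ, log (max 1 ‖φ x‖) + ∑ v ∈ T, log (max 1 (v x)) := by
  rw [logHeight₁_emb]
  congr 1
  · exact Finset.sum_congr rfl fun φ _ => posLog_eq_log_max_one (norm_nonneg _)
  · rw [finsum_congr (fun v : FinitePlace W =>
      (posLog_eq_log_max_one (apply_nonneg v x) : log⁺ (v x) = log (max 1 (v x))))]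
    apply finsum_eq_sum_of_support_subset
    intro v hv
    by_contra h
    apply hv
    show log (max 1 (v x)) = 0
    by_cases hx : x = 0
    · rw [hx, map_zero, max_eq_left zero_le_one, Real.log_one]
    · rw [hT hx v h, max_self, Real.log_one]

lemma log_sub_le (v : FinitePlace W) {x y : W} (hxy : x ≠ y) :
    log (v (x - y)) ≤ log (max 1 (v x)) + log (max 1 (v y)) := by
  have p1 : (0:ℝ) < max 1 (v x) := lt_of_lt_of_le one_pos (le_max_left _ _)
  have p2 : (0:ℝ) < max 1 (v y) := lt_of_lt_of_le one_pos (le_max_left _ _)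
  rw [← Real.log_mul p1.ne' p2.ne']
  apply Real.log_le_log (FinitePlace.pos_iff.mpr (sub_ne_zero.mpr hxy))
  have h0 : v (-y) = v y := v.1.map_neg y
  have h1 : v (x - y) ≤ max (v x) (v y) := by
    rw [sub_eq_add_neg]
    refine (v.add_le x (-y)).trans ?_
    rw [h0]
  refine h1.trans (max_le ?_ ?_)
  · calc v x ≤ max 1 (v x) * 1 := by rw [mul_one]; exact le_max_right _ _
      _ ≤ max 1 (v x) * max 1 (v y) := mul_le_mul_of_nonneg_left (le_max_left _ _) p1.le
  · calc v y ≤ 1 * max 1 (v y) := by rw [one_mul]; exact le_max_right _ _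
      _ ≤ max 1 (v x) * max 1 (v y) := mul_le_mul_of_nonneg_right (le_max_left _ _) p2.le

lemma tot {ι : Type} [DecidableEq ι] (s : Finset ι) (x : ι → ℝ) (z : ι → W)
    (T : Finset (FinitePlace W))
    (hz : ∀ i ∈ s, ∀ j ∈ s, i ≠ j → z i ≠ z j)
    (hT : ∀ i ∈ s, ∀ j ∈ s, i ≠ j → ∀ v, v ∉ T → v (z i - z j) = 1) :
    ∑ φ : W →+* ℂ, (∑ i ∈ s, ∑ j ∈ s,
        (if i = j then 0 else x i * x j * log ‖φ (z i) - φ (z j)‖)) +
      ∑ v ∈ T, (∑ i ∈ s, ∑ j ∈ s,
        (if i = j then 0 else x i * x j * log (v (z i - z j)))) = 0 := by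
  have e1 : ∑ φ : W →+* ℂ, (∑ i ∈ s, ∑ j ∈ s,
        (if i = j then 0 else x i * x j * log ‖φ (z i) - φ (z j)‖)) =
      ∑ i ∈ s, ∑ j ∈ s, ∑ φ : W →+* ℂ,
        (if i = j then 0 else x i * x j * log ‖φ (z i) - φ (z j)‖) := by
    rw [Finset.sum_comm]
    exact Finset.sum_congr rfl fun i _ => Finset.sum_comm
  have e2 : ∑ v ∈ T, (∑ i ∈ s, ∑ j ∈ s,
        (if i = j then 0 else x i * x j * log (v (z i - z j)))) =
      ∑ i ∈ s, ∑ j ∈ s, ∑ v ∈ T,
        (if i = j then 0 else x i * x j * log (v (z i - z j))) := by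
    rw [Finset.sum_comm]
    exact Finset.sum_congr rfl fun i _ => Finset.sum_comm
  rw [e1, e2, ← Finset.sum_add_distrib]
  apply Finset.sum_eq_zero
  intro i hi
  rw [← Finset.sum_add_distrib]
  apply Finset.sum_eq_zero
  intro j hj
  by_cases hij : i = j
  · simp [hij]
  · simp only [if_neg hij]
    rw [← Finset.mul_sum, ← Finset.mul_sum, ← mul_add]
    have h := sumlog (sub_ne_zero.mpr (hz i hi j hj hij)) (hT i hi j hj hij)
    simp only [map_sub] at h ⊢
    rw [h, mul_zero]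

/-- the double sum of the upper bounds -/
lemma dbl {ι : Type} (s : Finset ι) (x l : ι → ℝ) :
    ∑ i ∈ s, ∑ j ∈ s, x i * x j * (l i + l j) = 2 * (∑ i ∈ s, x i) * ∑ i ∈ s, x i * l i := by
  have e : ∀ i ∈ s, ∑ j ∈ s, x i * x j * (l i + l j) =
      x i * l i * (∑ j ∈ s, x j) + x i * ∑ j ∈ s, x j * l j := by
    intro i _
    rw [Finset.mul_sum, Finset.mul_sum, ← Finset.sum_add_distrib]
    exact Finset.sum_congr rfl fun j _ => by ring
  rw [Finset.sum_congr rfl e, Finset.sum_add_distrib, ← Finset.sum_mul, ← Finset.sum_mul]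
  ring

/-- the bound at a finite place -/
lemma fin_bound (D : ℕ) (P : Finset ℕ) (hP : ∀ p ∈ P, p.Prime) (z : ℕ → Fin D → W)
    (hz : ∀ p ∈ insert 1 P, ∀ q ∈ insert 1 P, ∀ i j, (p, i) ≠ (q, j) → z p i ≠ z q j)
    (v : FinitePlace W)
    (hF : ∀ p ∈ P, ∀ i,
      ∏ j, v (z p i - z 1 j) ≤ v (p : W) * max 1 (v (z p i)) ^ D * ∏ j, max 1 (v (z 1 j)))
    {A : ℝ} (hA : 0 ≤ A) (x : ℕ × Fin D → ℝ) (hx : x = fun a => if a.1 = 1 then A else 1) :
    ∑ a ∈ (insert 1 P) ×ˢ (univ : Finset (Fin D)), ∑ b ∈ (insert 1 P) ×ˢ (univ : Finset (Fin D)),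
      (if a = b then 0 else x a * x b * log (v (z a.1 a.2 - z b.1 b.2))) ≤
    (∑ a ∈ (insert 1 P) ×ˢ (univ : Finset (Fin D)), ∑ b ∈ (insert 1 P) ×ˢ (univ : Finset (Fin D)),
      x a * x b * (log (max 1 (v (z a.1 a.2))) + log (max 1 (v (z b.1 b.2))))) +
      2 * A * D * ∑ p ∈ P, log (v (p : W)) := by
  classical
  have h1P : 1 ∉ P := fun h => Nat.not_prime_one (hP 1 h)
  have hx0 : ∀ a, 0 ≤ x a := by
    intro a; rw [hx]; dsimp only; split_ifs; exacts [hA, zero_le_one]
  have hl0 : ∀ w : W, 0 ≤ log (max 1 (v w)) := fun w => Real.log_nonneg (le_max_left _ _)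
  set E : ℕ → ℕ → ℝ := fun p q => ∑ i : Fin D, ∑ j : Fin D,
    (if ((p, i) : ℕ × Fin D) = (q, j) then 0 else x (p, i) * x (q, j) *
      log (v (z p i - z q j))) with hE
  set B : ℕ → ℕ → ℝ := fun p q => ∑ i : Fin D, ∑ j : Fin D,
    x (p, i) * x (q, j) * (log (max 1 (v (z p i))) + log (max 1 (v (z q j)))) with hB
  have s1 : ∑ a ∈ (insert 1 P) ×ˢ (univ : Finset (Fin D)), ∑ b ∈ (insert 1 P) ×ˢ (univ : Finset (Fin D)),
      (if a = b then 0 else x a * x b * log (v (z a.1 a.2 - z b.1 b.2)))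
      = ∑ p ∈ insert 1 P, ∑ q ∈ insert 1 P, E p q := by
    rw [Finset.sum_product]
    refine Finset.sum_congr rfl fun p _ => ?_
    rw [hE]
    dsimp only
    conv_rhs => rw [Finset.sum_comm]
    refine Finset.sum_congr rfl fun σ _ => ?_
    rw [Finset.sum_product]
  have s2 : ∑ a ∈ (insert 1 P) ×ˢ (univ : Finset (Fin D)), ∑ b ∈ (insert 1 P) ×ˢ (univ : Finset (Fin D)),
      x a * x b * (log (max 1 (v (z a.1 a.2))) + log (max 1 (v (z b.1 b.2))))
      = ∑ p ∈ insert 1 P, ∑ q ∈ insert 1 P, B p q := by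
    rw [Finset.sum_product]
    refine Finset.sum_congr rfl fun p _ => ?_
    rw [hB]
    dsimp only
    conv_rhs => rw [Finset.sum_comm]
    refine Finset.sum_congr rfl fun σ _ => ?_
    rw [Finset.sum_product]
  have hEB : ∀ p ∈ insert 1 P, ∀ q ∈ insert 1 P, E p q ≤ B p q := by
    intro p hp q hq
    rw [hE, hB]
    dsimp only
    refine Finset.sum_le_sum fun i _ => Finset.sum_le_sum fun j _ => ?_
    have hxx := mul_nonneg (hx0 (p, i)) (hx0 (q, j))
    split_ifs with h
    · exact mul_nonneg hxx (add_nonneg (hl0 _) (hl0 _))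
    · exact mul_le_mul_of_nonneg_left (log_sub_le v (hz p hp q hq i j h)) hxx
  have m1 : (1:ℕ) ∈ insert 1 P := Finset.mem_insert_self _ _
  have mP : ∀ p ∈ P, p ∈ insert 1 P := fun p hp => Finset.mem_insert_of_mem hp
  have hsym : ∀ p q, E p q = E q p := by
    intro p q
    rw [hE]
    dsimp only
    rw [Finset.sum_comm]
    refine Finset.sum_congr rfl fun i _ => Finset.sum_congr rfl fun j _ => ?_
    have hv : v (z p j - z q i) = v (z q i - z p j) := by
      rw [← neg_sub]
      exact v.1.map_neg _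
    by_cases h : ((p, j) : ℕ × Fin D) = (q, i)
    · rw [if_pos h, if_pos h.symm]
    · rw [if_neg h, if_neg (fun h' => h h'.symm), hv]
      ring
  have hsymB : ∀ p q, B p q = B q p := by
    intro p q
    rw [hB]
    dsimp only
    rw [Finset.sum_comm]
    refine Finset.sum_congr rfl fun i _ => Finset.sum_congr rfl fun j _ => ?_
    ring
  have hE1 : ∀ p ∈ P, E p 1 ≤ B p 1 + A * D * log (v (p : W)) := by
    intro p hp
    have hp1 : p ≠ 1 := (hP p hp).ne_one
    have hvp : 0 < v (p : W) :=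
      FinitePlace.pos_iff.mpr (Nat.cast_ne_zero.mpr (hP p hp).ne_zero)
    have hi : ∀ i : Fin D, ∑ j : Fin D, log (v (z p i - z 1 j)) ≤
        log (v (p : W)) + (D * log (max 1 (v (z p i))) + ∑ j : Fin D, log (max 1 (v (z 1 j)))) := by
      intro i
      have hne : ∀ j ∈ (univ : Finset (Fin D)), v (z p i - z 1 j) ≠ 0 := by
        intro j _
        refine (FinitePlace.pos_iff.mpr (sub_ne_zero.mpr (hz p (mP p hp) 1 m1 i j ?_))).ne'
        intro h
        exact hp1 (Prod.ext_iff.mp h).1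
      have q1 : (0:ℝ) < max 1 (v (z p i)) := lt_of_lt_of_le one_pos (le_max_left _ _)
      have q2 : ∀ j ∈ (univ : Finset (Fin D)), max 1 (v (z 1 j)) ≠ 0 := fun j _ =>
        (lt_of_lt_of_le one_pos (le_max_left _ _)).ne'
      have h1 := Real.log_le_log (Finset.prod_pos fun j hj =>
        lt_of_le_of_ne (apply_nonneg v _) (hne j hj).symm) (hF p hp i)
      rw [Real.log_prod hne, Real.log_mul (mul_pos hvp (pow_pos q1 _)).ne'
        (Finset.prod_ne_zero_iff.mpr q2), Real.log_mul hvp.ne' (pow_pos q1 _).ne', Real.log_pow,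
        Real.log_prod q2] at h1
      linarith
    have e1 : E p 1 = A * ∑ i : Fin D, ∑ j : Fin D, log (v (z p i - z 1 j)) := by
      rw [hE]
      dsimp only
      rw [Finset.mul_sum]
      refine Finset.sum_congr rfl fun i _ => ?_
      rw [Finset.mul_sum]
      refine Finset.sum_congr rfl fun j _ => ?_
      rw [if_neg, hx]
      · dsimp only
        rw [if_neg hp1, if_pos rfl, one_mul]
      · intro h
        exact hp1 (Prod.ext_iff.mp h).1
    have e2 : B p 1 + A * D * log (v (p : W)) = A * ∑ i : Fin D, (log (v (p : W)) +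
        (D * log (max 1 (v (z p i))) + ∑ j : Fin D, log (max 1 (v (z 1 j))))) := by
      rw [Finset.sum_add_distrib, mul_add, Finset.sum_const, Finset.card_univ, Fintype.card_fin,
        nsmul_eq_mul, hB]
      dsimp only
      rw [add_comm, ← mul_assoc]
      congr 1
      rw [Finset.mul_sum]
      refine Finset.sum_congr rfl fun i _ => ?_
      have : ∀ j : Fin D, x (p, i) * x (1, j) * (log (max 1 (v (z p i))) + log (max 1 (v (z 1 j))))
          = A * (log (max 1 (v (z p i))) + log (max 1 (v (z 1 j)))) := by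
        intro j
        rw [hx]
        dsimp only
        rw [if_neg hp1, if_pos rfl, one_mul]
      rw [Finset.sum_congr rfl fun j _ => this j, ← Finset.mul_sum, Finset.sum_add_distrib,
        Finset.sum_const, Finset.card_univ, Fintype.card_fin, nsmul_eq_mul]
    rw [e1, e2]
    exact mul_le_mul_of_nonneg_left (Finset.sum_le_sum fun i _ => hi i) hA
  rw [s1, s2, Finset.sum_insert h1P, Finset.sum_insert h1P, Finset.sum_insert h1P,
    Finset.sum_insert h1P]
  have i1 := hEB 1 m1 1 m1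
  have i2 : ∑ q ∈ P, E 1 q ≤ ∑ q ∈ P, B 1 q + A * D * ∑ p ∈ P, log (v (p : W)) := by
    rw [Finset.mul_sum, ← Finset.sum_add_distrib]
    refine Finset.sum_le_sum fun p hp => ?_
    rw [hsym, hsymB]
    exact hE1 p hp
  have i3 : ∑ p ∈ P, ∑ q ∈ insert 1 P, E p q ≤
      ∑ p ∈ P, ∑ q ∈ insert 1 P, B p q + A * D * ∑ p ∈ P, log (v (p : W)) := by
    rw [Finset.mul_sum, ← Finset.sum_add_distrib]
    refine Finset.sum_le_sum fun p hp => ?_
    rw [Finset.sum_insert h1P, Finset.sum_insert h1P]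
    have j1 := hE1 p hp
    have j2 : ∑ q ∈ P, E p q ≤ ∑ q ∈ P, B p q :=
      Finset.sum_le_sum fun q hq => hEB p (mP p hp) q (mP q hq)
    linarith
  linarith

end basic

open Pool.Agent.Y740.Z in
theorem t_INEQ : Pool.Agent.Y740.Z.S_INEQ := by
  intro W _ _ D hD P hP z h hz hh hF A N hA hN
  classical
  have h1P : 1 ∉ P := fun h => Nat.not_prime_one (hP 1 h)
  set n := finrank ℚ W with hn
  have hn0 : 0 < n := finrank_pos
  have hcard : Fintype.card (W →+* ℂ) = n := NumberField.Embeddings.card W ℂ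
  set x : ℕ × Fin D → ℝ := fun a => if a.1 = 1 then A else 1 with hx
  set s : Finset (ℕ × Fin D) := (insert 1 P) ×ˢ Finset.univ with hs
  set zz : ℕ × Fin D → W := fun a => z a.1 a.2 with hzz
  have hx0 : ∀ a ∈ s, 0 ≤ x a := by
    intro a _
    rw [hx]; dsimp only; split_ifs
    · exact hA
    · exact zero_le_one
  have hinj : ∀ a ∈ s, ∀ b ∈ s, a ≠ b → zz a ≠ zz b := by
    rintro ⟨p, i⟩ ha ⟨q, j⟩ hb hab
    rw [hs, Finset.mem_product] at ha hb
    exact hz p ha.1 q hb.1 i j hab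
  obtain ⟨T, hT⟩ := exT (W := W) ((s ×ˢ s).image (fun c => zz c.1 - zz c.2) ∪ s.image zz ∪
    Finset.image (Nat.cast : ℕ → W) P)
  have hT1 : ∀ a ∈ s, ∀ b ∈ s, a ≠ b → ∀ v, v ∉ T → v (zz a - zz b) = 1 := by
    intro a ha b hb hab
    apply hT
    · simp only [Finset.mem_union, Finset.mem_image]
      exact Or.inl (Or.inl ⟨(a, b), Finset.mem_product.mpr ⟨ha, hb⟩, rfl⟩)
    · exact sub_ne_zero.mpr (hinj a ha b hb hab)
  have hT2 : ∀ a ∈ s, zz a ≠ 0 → ∀ v, v ∉ T → v (zz a) = 1 := by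
    intro a ha
    apply hT
    simp only [Finset.mem_union, Finset.mem_image]
    exact Or.inl (Or.inr ⟨a, ha, rfl⟩)
  have hT3 : ∀ p ∈ P, ∀ v, v ∉ T → v (p : W) = 1 := by
    intro p hp
    apply hT
    · simp only [Finset.mem_union, Finset.mem_image]
      exact Or.inr ⟨p, hp, rfl⟩
    · exact Nat.cast_ne_zero.mpr (hP p hp).ne_zero
  have ht0 : 0 ≤ 1 - 1 / N := by
    rw [sub_nonneg, div_le_one (by linarith)]; exact hN
  have ht1 : 1 - 1 / N < 1 := by
    have : 0 < 1 / N := by positivity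
    linarith
  have hN0 : 0 < N := by linarith
  have e1 : 1 / (1 - (1 - 1 / N)) = N := by
    field_simp; ring
  have e2 : Real.log (2 / (1 + (1 - 1 / N))) ≤ 1 / N := by
    have h1 : 1 + (1 - 1 / N) = (2 * N - 1) / N := by field_simp; ring
    have h2 : 2 / (1 + (1 - 1 / N)) = 1 + 1 / (2 * N - 1) := by
      rw [h1]
      have : 2 * N - 1 ≠ 0 := by nlinarith
      field_simp; ring
    rw [h2]
    have h3 : 0 < 1 / (2 * N - 1) := by apply div_pos one_pos; nlinarith
    have h4 := Real.log_le_sub_one_of_pos (show 0 < 1 + 1 / (2 * N - 1) by linarith)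
    have h5 : 1 / (2 * N - 1) ≤ 1 / N := by
      apply one_div_le_one_div_of_le hN0; linarith
    linarith
  -- the values of the sums of weights
  have r1 : ∑ a ∈ s, x a = D * (A + P.card) := by
    rw [hs, Finset.sum_product, Finset.sum_insert h1P]
    have : ∀ p ∈ P, ∑ i : Fin D, x (p, i) = D := by
      intro p hp
      simp [hx, (hP p hp).ne_one]
    rw [Finset.sum_congr rfl this, Finset.sum_const, nsmul_eq_mul]
    have h1 : ∑ i : Fin D, x (1, i) = D * A := by
      simp [hx]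
    rw [h1]
    ring
  have r2 : ∑ a ∈ s, x a ^ 2 = D * (A ^ 2 + P.card) := by
    rw [hs, Finset.sum_product, Finset.sum_insert h1P]
    have : ∀ p ∈ P, ∑ i : Fin D, x (p, i) ^ 2 = D := by
      intro p hp
      simp [hx, (hP p hp).ne_one]
    rw [Finset.sum_congr rfl this, Finset.sum_const, nsmul_eq_mul]
    have h1 : ∑ i : Fin D, x (1, i) ^ 2 = D * A ^ 2 := by
      simp [hx]
    rw [h1]
    ring
  have r3 : ∑ a ∈ s, x a * logHeight₁ (zz a) = D * n * h * (A + ∑ p ∈ P, (p : ℝ)) := by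
    rw [hs, Finset.sum_product, Finset.sum_insert h1P]
    have h1 : ∑ i : Fin D, x (1, i) * logHeight₁ (zz (1, i)) = D * n * h * A := by
      have : ∀ i : Fin D, x (1, i) * logHeight₁ (zz (1, i)) = A * (h * n) := by
        intro i
        have h2 := hh 1 (Finset.mem_insert_self _ _) i
        rw [hx, hzz]
        dsimp only
        rw [if_pos rfl, h2]
        push_cast
        ring
      rw [Finset.sum_congr rfl fun i _ => this i, Finset.sum_const, Finset.card_univ,
        Fintype.card_fin, nsmul_eq_mul]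
      ring
    have h2 : ∀ p ∈ P, ∑ i : Fin D, x (p, i) * logHeight₁ (zz (p, i)) = D * n * h * p := by
      intro p hp
      have : ∀ i : Fin D, x (p, i) * logHeight₁ (zz (p, i)) = p * (h * n) := by
        intro i
        have h2 := hh p (Finset.mem_insert_of_mem hp) i
        rw [hx, hzz]
        dsimp only
        rw [if_neg (hP p hp).ne_one, h2]
        ring
      rw [Finset.sum_congr rfl fun i _ => this i, Finset.sum_const, Finset.card_univ,
        Fintype.card_fin, nsmul_eq_mul]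
      ring
    rw [h1, Finset.sum_congr rfl h2, ← Finset.mul_sum]
    ring
  -- archimedean places
  have hArch : ∀ φ : W →+* ℂ, ∑ a ∈ s, ∑ b ∈ s,
      (if a = b then 0 else x a * x b * log ‖φ (zz a) - φ (zz b)‖) ≤
      2 * (D * (A + P.card)) * (∑ a ∈ s, x a * log (max 1 ‖φ (zz a)‖)) +
        ((D * (A + P.card)) ^ 2 / N + (D * (A ^ 2 + P.card)) * log N) := by
    intro φ
    have hE := Pool.Agent.H388SL.energy s x hx0 (fun a => φ (zz a))
      (fun a ha b hb hab hφ => hinj a ha b hb hab (φ.injective hφ)) ht0 ht1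
    rw [r1, r2, e1] at hE
    have h6 : 0 ≤ (1 - 1 / N) * ‖∑ i ∈ s, (x i : ℂ) * Pool.Agent.H388SL.refl (φ (zz i))‖ ^ 2 := by
      positivity
    have h7 : ((D : ℝ) * (A + P.card)) ^ 2 * Real.log (2 / (1 + (1 - 1 / N))) ≤
        ((D : ℝ) * (A + P.card)) ^ 2 * (1 / N) := mul_le_mul_of_nonneg_left e2 (by positivity)
    have h8 : ((D : ℝ) * (A + P.card)) ^ 2 * (1 / N) = ((D : ℝ) * (A + P.card)) ^ 2 / N := by ring
    linarith
  have hFin : ∀ v : FinitePlace W, ∑ a ∈ s, ∑ b ∈ s,
      (if a = b then 0 else x a * x b * log (v (zz a - zz b))) ≤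
      2 * (D * (A + P.card)) * (∑ a ∈ s, x a * log (max 1 (v (zz a)))) +
        2 * A * D * ∑ p ∈ P, log (v (p : W)) := by
    intro v
    have h1 := fin_bound D P hP z hz v (fun p hp i => hF p hp i v) hA x hx
    have h2 := dbl s x (fun a => log (max 1 (v (zz a))))
    rw [r1] at h2
    rw [← h2]
    exact h1
  have htot := tot s x zz T hinj hT1
  have hA1 := Finset.sum_le_sum fun (φ : W →+* ℂ) (_ : φ ∈ (Finset.univ : Finset (W →+* ℂ))) =>
    hArch φ
  have hF1 := Finset.sum_le_sum fun (v : FinitePlace W) (_ : v ∈ T) => hFin v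
  rw [Finset.sum_add_distrib, Finset.sum_const, Finset.card_univ, hcard, nsmul_eq_mul,
    ← Finset.mul_sum] at hA1
  rw [Finset.sum_add_distrib, ← Finset.mul_sum, ← Finset.mul_sum] at hF1
  -- heights
  have hht : ∑ φ : W →+* ℂ, ∑ a ∈ s, x a * log (max 1 ‖φ (zz a)‖) +
      ∑ v ∈ T, ∑ a ∈ s, x a * log (max 1 (v (zz a))) = ∑ a ∈ s, x a * logHeight₁ (zz a) := by
    rw [Finset.sum_comm, Finset.sum_comm (s := T), ← Finset.sum_add_distrib]
    refine Finset.sum_congr rfl fun a ha => ?_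
    rw [← Finset.mul_sum, ← Finset.mul_sum, ← mul_add, htT (hT2 a ha)]
  have hlogp : ∑ v ∈ T, ∑ p ∈ P, log (v (p : W)) = - (n * ∑ p ∈ P, log (p : ℝ)) := by
    rw [Finset.sum_comm, Finset.mul_sum, ← Finset.sum_neg_distrib]
    refine Finset.sum_congr rfl fun p hp => ?_
    have h1 := sumlog (Nat.cast_ne_zero.mpr (hP p hp).ne_zero) (hT3 p hp)
    have h2 : ∑ φ : W →+* ℂ, log ‖φ (p : W)‖ = n * log (p : ℝ) := by
      have : ∀ φ : W →+* ℂ, log ‖φ (p : W)‖ = log (p : ℝ) := by
        intro φ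
        rw [map_natCast, Complex.norm_natCast]
      rw [Finset.sum_congr rfl fun φ _ => this φ, Finset.sum_const, Finset.card_univ, hcard,
        nsmul_eq_mul]
    rw [h2] at h1
    linarith
  rw [hlogp] at hF1
  have hfinal : (n * D : ℝ) * (2 * A * ∑ p ∈ P, Real.log p) ≤ (n * D : ℝ) *
      (2 * (A + P.card) * (A + ∑ p ∈ P, (p : ℝ)) * (D * h)
      + D * (A + P.card) ^ 2 / N + (A ^ 2 + P.card) * Real.log N) := by
    have h1 : 2 * ((D : ℝ) * (A + P.card)) * (∑ a ∈ s, x a * logHeight₁ (zz a)) =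
        2 * ((D : ℝ) * (A + P.card)) * (∑ φ : W →+* ℂ, ∑ a ∈ s, x a * log (max 1 ‖φ (zz a)‖)) +
        2 * ((D : ℝ) * (A + P.card)) * (∑ v ∈ T, ∑ a ∈ s, x a * log (max 1 (v (zz a)))) := by
      rw [← hht, mul_add]
    rw [r3] at h1
    have h2 : (n * D : ℝ) *
      (2 * (A + P.card) * (A + ∑ p ∈ P, (p : ℝ)) * (D * h)
      + D * (A + P.card) ^ 2 / N + (A ^ 2 + P.card) * Real.log N) =
        2 * ((D : ℝ) * (A + P.card)) * (D * n * h * (A + ∑ p ∈ P, (p : ℝ))) +
        n * ((D * (A + P.card)) ^ 2 / N + (D * (A ^ 2 + P.card)) * log N) := by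
      ring
    rw [h2, h1]
    linarith
  have hnD : (0:ℝ) < n * D := by
    have a1 : (0:ℝ) < n := by exact_mod_cast hn0
    have a2 : (0:ℝ) < D := by exact_mod_cast hD
    positivity
  exact le_of_mul_le_mul_left hfinal hnD

end Pool.Agent.Y657.ZF
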